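import Mathlib

/-!
The norm of a polynomial value at a root of unity is divisible by a high power of a prime if the
polynomial vanishes at many primitive roots modulo the prime.
-/

set_option autoImplicit false

namespace Pool.Agent.TH487.RP

open Polynomial Finset

/-- The matrix of the multiplication by `P` modulo the cyclotomic polynomial, in the power basis. -/
noncomputable def MM (d : ℕ) (P : ℤ[X]) : Matrix (Fin d.totient) (Fin d.totient) ℤ :=
  fun i j => ((P * X ^ (j : ℕ)) %ₘ cyclotomic d ℤ).coeff i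

theorem MM_eval {K : Type} [CommRing K] (f : ℤ →+* K) (d : ℕ) (hd : 0 < d) (P : ℤ[X]) (ρ : K)
    (hρ : (cyclotomic d ℤ).eval₂ f ρ = 0) (j : Fin d.totient) :
    ∑ i : Fin d.totient, ρ ^ (i : ℕ) * f (MM d P i j) = P.eval₂ f ρ * ρ ^ (j : ℕ) := by
  have hmon := cyclotomic.monic d ℤ
  have hdeg : (cyclotomic d ℤ).natDegree = d.totient := natDegree_cyclotomic d ℤ
  have htot : 0 < d.totient := Nat.totient_pos.2 hd
  have hne : cyclotomic d ℤ ≠ 1 := by
    intro h
    rw [h, natDegree_one] at hdeg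
    omega
  set Q := P * X ^ (j : ℕ) with hQ
  have h1 : (Q %ₘ cyclotomic d ℤ).natDegree < d.totient := by
    rw [← hdeg]
    exact natDegree_modByMonic_lt Q hmon hne
  have h2 : (Q %ₘ cyclotomic d ℤ).eval₂ f ρ = Q.eval₂ f ρ := by
    conv_rhs => rw [← modByMonic_add_div Q (cyclotomic d ℤ)]
    rw [eval₂_add, eval₂_mul, hρ, zero_mul, add_zero]
  have h3 : Q.eval₂ f ρ = P.eval₂ f ρ * ρ ^ (j : ℕ) := by
    rw [hQ, eval₂_mul, eval₂_X_pow]
  rw [← h3, ← h2, eval₂_eq_sum_range' f h1, ← Fin.sum_univ_eq_sum_range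
    (fun i => f ((Q %ₘ cyclotomic d ℤ).coeff i) * ρ ^ i)]
  refine sum_congr rfl fun i _ => ?_
  rw [mul_comm]
  rfl

theorem MM_mul {K : Type} [CommRing K] (f : ℤ →+* K) (d : ℕ) (hd : 0 < d) (P : ℤ[X])
    (e : Fin d.totient → K) (he : ∀ i, (cyclotomic d ℤ).eval₂ f (e i) = 0) :
    Matrix.vandermonde e * (MM d P).map f =
      Matrix.diagonal (fun i => P.eval₂ f (e i)) * Matrix.vandermonde e := by
  ext i j
  rw [Matrix.mul_apply, Matrix.diagonal_mul, Matrix.vandermonde_apply, ← MM_eval f d hd P (e i) (he i) j]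
  refine sum_congr rfl fun k _ => ?_
  rw [Matrix.vandermonde_apply, Matrix.map_apply]

theorem exists_enum {K : Type} [CommRing K] [IsDomain K] [DecidableEq K] (d : ℕ) (hd : 0 < d)
    (ζ : K) (hζ : IsPrimitiveRoot ζ d) :
    ∃ e : Fin d.totient → K, Function.Injective e ∧ (∀ i, IsPrimitiveRoot (e i) d) ∧
      ∀ x, IsPrimitiveRoot x d → ∃ i, e i = x := by
  have hc : (primitiveRoots d K).card = d.totient := hζ.card_primitiveRoots
  let E := (primitiveRoots d K).equivFinOfCardEq hc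
  refine ⟨fun i => ((E.symm i : primitiveRoots d K) : K), ?_, ?_, ?_⟩
  · intro i j h
    exact E.symm.injective (Subtype.ext h)
  · intro i
    exact isPrimitiveRoot_of_mem_primitiveRoots (E.symm i).2
  · intro x hx
    refine ⟨E ⟨x, (mem_primitiveRoots hd).2 hx⟩, ?_⟩
    simp

theorem eval_cyclo {K : Type} [CommRing K] [IsDomain K] (d : ℕ) (hd : 0 < d) (ζ : K)
    (hζ : IsPrimitiveRoot ζ d) : (cyclotomic d ℤ).eval₂ (Int.castRingHom K) ζ = 0 := by
  rw [← eval_map, map_cyclotomic]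
  exact (hζ.isRoot_cyclotomic hd)

/-- the determinant is the norm -/
theorem det_MM (d : ℕ) (hd : 0 < d) (P : ℤ[X]) :
    (((MM d P).det : ℤ) : ℂ) = ∏ ζ ∈ primitiveRoots d ℂ, P.eval₂ (Int.castRingHom ℂ) ζ := by
  classical
  have hζ := Complex.isPrimitiveRoot_exp d hd.ne'
  obtain ⟨e, he1, he2, he3⟩ := exists_enum (K := ℂ) d hd _ hζ
  have h1 := MM_mul (Int.castRingHom ℂ) d hd P e (fun i => eval_cyclo d hd _ (he2 i))
  have h2 := congrArg Matrix.det h1
  rw [Matrix.det_mul, Matrix.det_mul, Matrix.det_diagonal, mul_comm] at h2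
  have hV : (Matrix.vandermonde e).det ≠ 0 := Matrix.det_vandermonde_ne_zero_iff.2 he1
  have h3 := mul_right_cancel₀ hV h2
  have h4 : ((MM d P).map (Int.castRingHom ℂ)).det = (((MM d P).det : ℤ) : ℂ) := by
    have := RingHom.map_det (Int.castRingHom ℂ) (MM d P)
    rw [RingHom.mapMatrix_apply] at this
    rw [← this]
    rfl
  rw [← h4, h3]
  symm
  have h5 : primitiveRoots d ℂ = univ.image e := by
    ext x
    rw [mem_primitiveRoots hd, mem_image]
    constructor
    · intro hx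
      obtain ⟨i, hi⟩ := he3 x hx
      exact ⟨i, mem_univ _, hi⟩
    · rintro ⟨i, -, rfl⟩
      exact he2 i
  rw [h5, prod_image (fun i _ j _ h => he1 h)]

/-- divisibility of the norm by a power of `p` -/
theorem pow_dvd_det (p d : ℕ) [Fact p.Prime] (hd : 0 < d) (hdp : d ∣ p - 1) (P : ℤ[X])
    (R : Finset (ZMod p)) (hR : ∀ ρ ∈ R, IsPrimitiveRoot ρ d ∧ P.eval₂ (Int.castRingHom (ZMod p)) ρ = 0) :
    (p : ℤ) ^ R.card ∣ (MM d P).det := by
  classical
  have hp : p.Prime := Fact.out
  obtain ⟨g, hg⟩ : ∃ g : (ZMod p)ˣ, orderOf g = p - 1 := by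
    obtain ⟨g, hg⟩ := IsCyclic.exists_ofOrder_eq_natCard (α := (ZMod p)ˣ)
    refine ⟨g, ?_⟩
    rw [hg, Nat.card_eq_fintype_card, ZMod.card_units]
  obtain ⟨m, hm⟩ := hdp
  have hp1 : 0 < p - 1 := by have := hp.two_le; omega
  have hm0 : 0 < m := by
    rcases Nat.eq_zero_or_pos m with h | h
    · subst h; omega
    · exact h
  have hζ : IsPrimitiveRoot ((g ^ m : (ZMod p)ˣ) : ZMod p) d := by
    have h1 : IsPrimitiveRoot (g ^ m) d := by
      have h2 : orderOf (g ^ m) = d := by
        rw [orderOf_pow_of_dvd hm0.ne' (by rw [hg, hm]; exact dvd_mul_left m d), hg, hm]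
        exact Nat.mul_div_cancel d hm0
      rw [← h2]
      exact IsPrimitiveRoot.orderOf _
    exact IsPrimitiveRoot.coe_units_iff.2 h1
  obtain ⟨e, he1, he2, he3⟩ := exists_enum (K := ZMod p) d hd _ hζ
  have h1 := MM_mul (Int.castRingHom (ZMod p)) d hd P e (fun i => eval_cyclo d hd _ (he2 i))
  -- integer lift of the Vandermonde matrix
  let W : Matrix (Fin d.totient) (Fin d.totient) ℤ := fun i j => (((e i) ^ (j : ℕ)).val : ℤ)
  have hW : W.map (Int.castRingHom (ZMod p)) = Matrix.vandermonde e := by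
    ext i j
    rw [Matrix.map_apply, Matrix.vandermonde_apply]
    simp [W]
  have hdetW : ¬ (p : ℤ) ∣ W.det := by
    intro h
    have h2 : ((W.det : ℤ) : ZMod p) = 0 := (ZMod.intCast_zmod_eq_zero_iff_dvd _ p).2 h
    have h3 := RingHom.map_det (Int.castRingHom (ZMod p)) W
    rw [RingHom.mapMatrix_apply, hW] at h3
    have hV : (Matrix.vandermonde e).det ≠ 0 := Matrix.det_vandermonde_ne_zero_iff.2 he1
    apply hV
    rw [← h3]
    exact h2
  set S : Finset (Fin d.totient) := univ.filter (fun i => e i ∈ R) with hS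
  have hcard : R.card ≤ S.card := by
    have : R ⊆ S.image e := by
      intro ρ hρ
      obtain ⟨i, hi⟩ := he3 ρ (hR ρ hρ).1
      exact mem_image.2 ⟨i, mem_filter.2 ⟨mem_univ _, by rw [hi]; exact hρ⟩, hi⟩
    exact (card_le_card this).trans card_image_le
  have hrow : ∀ i ∈ S, ∀ j, (p : ℤ) ∣ (W * MM d P) i j := by
    intro i hi j
    rw [← ZMod.intCast_zmod_eq_zero_iff_dvd]
    have h2 : (((W * MM d P) i j : ℤ) : ZMod p) =
        (Matrix.vandermonde e * (MM d P).map (Int.castRingHom (ZMod p))) i j := by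
      rw [← hW, ← Matrix.map_mul, Matrix.map_apply]
      rfl
    rw [h2, h1, Matrix.diagonal_mul, (hR (e i) (mem_filter.1 hi).2).2, zero_mul]
  let D : Fin d.totient → ℤ := fun i => if i ∈ S then (p : ℤ) else 1
  let B : Matrix (Fin d.totient) (Fin d.totient) ℤ :=
    fun i j => if i ∈ S then (W * MM d P) i j / p else (W * MM d P) i j
  have hDB : W * MM d P = Matrix.diagonal D * B := by
    ext i j
    rw [Matrix.diagonal_mul]
    by_cases hi : i ∈ S
    · simp only [D, B, if_pos hi]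
      exact (Int.mul_ediv_cancel' (hrow i hi j)).symm
    · simp only [D, B, if_neg hi, one_mul]
  have hdet : W.det * (MM d P).det = (p : ℤ) ^ S.card * B.det := by
    rw [← Matrix.det_mul, hDB, Matrix.det_mul, Matrix.det_diagonal]
    congr 1
    simp only [D]
    rw [prod_ite, prod_const, prod_const_one, mul_one]
    congr 1
    congr 1
    ext i
    simp
  have hpp : Prime (p : ℤ) := Nat.prime_iff_prime_int.1 hp
  have h5 : (p : ℤ) ^ S.card ∣ W.det * (MM d P).det := ⟨_, hdet⟩
  have h6 : (p : ℤ) ^ S.card ∣ (MM d P).det := by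
    have hcop : IsCoprime ((p : ℤ) ^ S.card) W.det :=
      IsCoprime.pow_left ((Prime.coprime_iff_not_dvd hpp).2 hdetW)
    exact hcop.dvd_of_dvd_mul_left h5
  exact (pow_dvd_pow _ hcard).trans h6

end Pool.Agent.TH487.RP
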