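import Mathlib

/-!
An explicit Pólya-Vinogradov inequality for prime moduli.
-/

set_option autoImplicit false

namespace Pool.Agent.TH487.RP

open Finset

theorem harm (n : ℕ) : ∑ v ∈ range n, (1 : ℝ) / ((v : ℝ) + 1) ≤ Real.log (2 * n + 1) := by
  induction n with
  | zero => simp
  | succ n ih =>
    rw [sum_range_succ]
    have h0 : (0 : ℝ) < 2 * (n : ℝ) + 1 := by positivity
    have h1 : (0 : ℝ) ≤ 2 / (2 * (n : ℝ) + 1) := by positivity
    have h2 := Real.le_log_one_add_of_nonneg h1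
    have h3 : 2 * (2 / (2 * (n : ℝ) + 1)) / (2 / (2 * (n : ℝ) + 1) + 2) = 1 / ((n : ℝ) + 1) := by
      have h4 : (n : ℝ) + 1 ≠ 0 := by positivity
      field_simp
      ring
    rw [h3] at h2
    have h5 : Real.log (2 * ((n + 1 : ℕ) : ℝ) + 1) =
        Real.log (2 * (n : ℝ) + 1) + Real.log (1 + 2 / (2 * (n : ℝ) + 1)) := by
      rw [← Real.log_mul (by positivity) (by positivity)]
      congr 1
      push_cast
      field_simp
      ring
    rw [h5]
    linarith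

/-- splitting a sum over the residues modulo `2M+1` -/
theorem sum_zmod {R : Type} [AddCommMonoid R] (p M : ℕ) [NeZero p] (hp : p = 2 * M + 1)
    (G : ZMod p → R) :
    ∑ b : ZMod p, G b =
      G 0 + ∑ v ∈ range M, (G ((v + 1 : ℕ) : ZMod p) + G (-((v + 1 : ℕ) : ZMod p))) := by
  have h1 : ∑ b : ZMod p, G b = ∑ v ∈ range p, G ((v : ℕ) : ZMod p) := by
    refine sum_bij' (fun b _ => b.val) (fun v _ => (v : ZMod p)) ?_ ?_ ?_ ?_ ?_
    · intro b _; exact mem_range.2 (ZMod.val_lt b)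
    · intro v _; exact mem_univ _
    · intro b _; simp
    · intro v hv; exact ZMod.val_cast_of_lt (mem_range.1 hv)
    · intro b _; simp
  rw [h1]
  have h2 : range p = range ((M + 1) + M) := by congr 1; omega
  have h3 : ∑ v ∈ range M, G (((M + 1 + v : ℕ)) : ZMod p) =
      ∑ v ∈ range M, G (-((v + 1 : ℕ) : ZMod p)) := by
    rw [← sum_range_reflect]
    refine sum_congr rfl fun v hv => ?_
    congr 1
    rw [mem_range] at hv
    have h4 : ((M + 1 + (M - 1 - v) : ℕ) : ZMod p) + ((v + 1 : ℕ) : ZMod p) = 0 := by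
      rw [← Nat.cast_add]
      have : M + 1 + (M - 1 - v) + (v + 1) = p := by omega
      rw [this]
      exact ZMod.natCast_self p
    exact eq_neg_of_add_eq_zero_left h4
  rw [h2, sum_range_add, h3, sum_range_succ', Nat.cast_zero, sum_add_distrib,
    add_comm (∑ v ∈ range M, G ((v + 1 : ℕ) : ZMod p)) (G 0), add_assoc]

/-- geometric sums of additive characters -/
theorem geo_bound (p : ℕ) [Fact p.Prime] (N v : ℕ) (hv : 2 * (v + 1) < p) :
    ‖∑ n ∈ range N, (ZMod.stdAddChar (((n : ℕ) : ZMod p) * ((v + 1 : ℕ) : ZMod p)) : ℂ)‖ ≤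
      p / 2 * (1 / ((v : ℝ) + 1)) := by
  have hp0 : (0 : ℝ) < p := by exact_mod_cast (Fact.out : p.Prime).pos
  set z : ℂ := ZMod.stdAddChar (((v + 1 : ℕ) : ZMod p)) with hz
  have h1 : ∑ n ∈ range N, (ZMod.stdAddChar (((n : ℕ) : ZMod p) * ((v + 1 : ℕ) : ZMod p)) : ℂ) =
      ∑ n ∈ range N, z ^ n := by
    refine sum_congr rfl fun n _ => ?_
    rw [← nsmul_eq_mul, AddChar.map_nsmul_eq_pow]
  have hze : z = Complex.exp (Complex.I * ((2 * Real.pi * ((v : ℝ) + 1) / p : ℝ) : ℂ)) := by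
    have := ZMod.stdAddChar_coe (N := p) ((v + 1 : ℕ) : ℤ)
    rw [hz]
    have h2 : (((v + 1 : ℕ) : ℤ) : ZMod p) = ((v + 1 : ℕ) : ZMod p) := by push_cast; rfl
    rw [h2] at this
    rw [this]
    congr 1
    push_cast
    ring
  have hnz : ‖z‖ = 1 := by
    rw [hze, mul_comm, Complex.norm_exp_ofReal_mul_I]
  have hx : (2 * Real.pi * ((v : ℝ) + 1) / p) / 2 = Real.pi * ((v : ℝ) + 1) / p := by ring
  have hv' : 2 * ((v : ℝ) + 1) < p := by exact_mod_cast hv
  have hsin : 2 * ((v : ℝ) + 1) / p ≤ Real.sin (Real.pi * ((v : ℝ) + 1) / p) := by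
    have h3 := Real.mul_le_sin (x := Real.pi * ((v : ℝ) + 1) / p) (by positivity) (by
      rw [div_le_div_iff₀ hp0 (by norm_num)]
      nlinarith [Real.pi_pos])
    have h4 : 2 / Real.pi * (Real.pi * ((v : ℝ) + 1) / p) = 2 * ((v : ℝ) + 1) / p := by
      field_simp
    rwa [h4] at h3
  have hd : ‖z - 1‖ ≥ 4 * ((v : ℝ) + 1) / p := by
    rw [hze, Complex.norm_exp_I_mul_ofReal_sub_one, hx, Real.norm_eq_abs]
    refine le_trans ?_ (le_abs_self _)
    have : 4 * ((v : ℝ) + 1) / p = 2 * (2 * ((v : ℝ) + 1) / p) := by ring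
    rw [this]
    linarith
  have hdp : 0 < 4 * ((v : ℝ) + 1) / p := by positivity
  have hz1 : z ≠ 1 := by
    intro h
    rw [h, sub_self, norm_zero] at hd
    linarith
  rw [h1, geom_sum_eq hz1, norm_div]
  have hnum : ‖z ^ N - 1‖ ≤ 2 := by
    refine (norm_sub_le _ _).trans ?_
    rw [norm_pow, hnz, one_pow, norm_one]
    norm_num
  calc ‖z ^ N - 1‖ / ‖z - 1‖ ≤ 2 / (4 * ((v : ℝ) + 1) / p) :=
        div_le_div₀ (by norm_num) hnum hdp hd
    _ = p / 2 * (1 / ((v : ℝ) + 1)) := by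
        have : (v : ℝ) + 1 ≠ 0 := by positivity
        field_simp
        norm_num

/-- **Pólya-Vinogradov** for prime moduli, with constant one. -/
theorem polya_vinogradov (p : ℕ) [Fact p.Prime] (hp2 : p ≠ 2) (χ : MulChar (ZMod p) ℂ)
    (hχ : χ ≠ 1) (N : ℕ) :
    ‖∑ n ∈ range N, χ ((n : ℕ) : ZMod p)‖ ≤ Real.sqrt p * Real.log p := by
  have hpp : p.Prime := Fact.out
  have hp0 : (0 : ℝ) < p := by exact_mod_cast hpp.pos
  obtain ⟨M, hM⟩ : ∃ M, p = 2 * M + 1 := by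
    have := hpp.eq_two_or_odd'
    rcases this with h | h
    · exact absurd h hp2
    · exact h
  set ψ : AddChar (ZMod p) ℂ := ZMod.stdAddChar with hψ
  set τ := gaussSum χ⁻¹ ψ with hτ
  have hχi : χ⁻¹ ≠ 1 := by simpa using hχ
  -- the Gauss sum
  have hτn : ‖τ‖ = Real.sqrt p := by
    have h1 := gaussSum_mul_gaussSum_eq_card hχi (ZMod.isPrimitive_stdAddChar p)
    rw [← star_gaussSum_eq, ZMod.card] at h1
    have h2 : (‖τ‖ : ℝ) ^ 2 = p := by
      have h3 : ((‖τ‖ ^ 2 : ℝ) : ℂ) = (p : ℂ) := by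
        rw [← h1]
        have := Complex.mul_conj τ
        rw [Complex.normSq_eq_norm_sq] at this
        rw [← this]
        rfl
      exact_mod_cast h3
    rw [← h2, Real.sqrt_sq (norm_nonneg _)]
  have hexp : ∀ n : ZMod p, τ * χ n = ∑ b : ZMod p, χ⁻¹ b * ψ (n * b) := by
    intro n
    by_cases hn : n = 0
    · subst hn
      rw [MulChar.map_zero, mul_zero]
      simp only [zero_mul, AddChar.map_zero_eq_one, mul_one]
      exact (MulChar.sum_eq_zero_of_ne_one hχi).symm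
    · have h1 := gaussSum_mulShift_eq χ⁻¹ ψ (Units.mk0 n hn)
      rw [inv_inv, Units.val_mk0] at h1
      rw [mul_comm, ← h1]
      simp only [gaussSum, AddChar.mulShift_apply]
  have hsum : τ * ∑ n ∈ range N, χ ((n : ℕ) : ZMod p) =
      ∑ b : ZMod p, χ⁻¹ b * ∑ n ∈ range N, ψ (((n : ℕ) : ZMod p) * b) := by
    rw [mul_sum]
    simp_rw [hexp, mul_sum]
    rw [sum_comm]
  have hbound : ‖τ * ∑ n ∈ range N, χ ((n : ℕ) : ZMod p)‖ ≤ p * Real.log p := by
    rw [hsum]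
    refine (norm_sum_le _ _).trans ?_
    rw [sum_zmod p M hM]
    have h0 : ‖χ⁻¹ (0 : ZMod p) * ∑ n ∈ range N, ψ (((n : ℕ) : ZMod p) * 0)‖ = 0 := by
      rw [MulChar.map_zero, zero_mul, norm_zero]
    rw [h0, zero_add]
    have hchi : ∀ b : ZMod p, ‖χ⁻¹ b‖ ≤ 1 := fun b => DirichletCharacter.norm_le_one χ⁻¹ b
    have h1 : ∀ v ∈ range M, ‖χ⁻¹ (((v + 1 : ℕ) : ZMod p)) * ∑ n ∈ range N, ψ (((n : ℕ) : ZMod p) * ((v + 1 : ℕ) : ZMod p))‖ +
        ‖χ⁻¹ (-((v + 1 : ℕ) : ZMod p)) * ∑ n ∈ range N, ψ (((n : ℕ) : ZMod p) * (-((v + 1 : ℕ) : ZMod p)))‖ ≤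
        p * (1 / ((v : ℝ) + 1)) := by
      intro v hv
      rw [mem_range] at hv
      have h2 := geo_bound p N v (by omega)
      have h3 : ‖∑ n ∈ range N, ψ (((n : ℕ) : ZMod p) * (-((v + 1 : ℕ) : ZMod p)))‖ =
          ‖∑ n ∈ range N, ψ (((n : ℕ) : ZMod p) * ((v + 1 : ℕ) : ZMod p))‖ := by
        rw [← Complex.norm_conj, map_sum]
        congr 1
        refine sum_congr rfl fun n _ => ?_
        rw [← AddChar.map_neg_eq_conj, mul_neg, neg_neg]
      rw [norm_mul, norm_mul, h3]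
      have h4 := hchi ((v + 1 : ℕ) : ZMod p)
      have h5 := hchi (-((v + 1 : ℕ) : ZMod p))
      have h6 := norm_nonneg (∑ n ∈ range N, ψ (((n : ℕ) : ZMod p) * ((v + 1 : ℕ) : ZMod p)))
      nlinarith
    refine (sum_le_sum h1).trans ?_
    rw [← mul_sum]
    refine mul_le_mul_of_nonneg_left ?_ hp0.le
    refine (harm M).trans (le_of_eq ?_)
    congr 1
    rw [hM]
    push_cast
    ring
  rw [norm_mul, hτn] at hbound
  have hs : 0 < Real.sqrt p := Real.sqrt_pos.2 hp0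
  have hs2 : (p : ℝ) = Real.sqrt p * Real.sqrt p := (Real.mul_self_sqrt hp0.le).symm
  have h9 : Real.sqrt p * ‖∑ n ∈ range N, χ ((n : ℕ) : ZMod p)‖ ≤ Real.sqrt p * (Real.sqrt p * Real.log p) := by
    rw [← mul_assoc, ← hs2]
    exact hbound
  exact le_of_mul_le_mul_left h9 hs

end Pool.Agent.TH487.RP
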