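import Mathlib
import Pool.Agent.H332R2.Window

/-!
If `p` divides the numerator of the Bernoulli number `B_k` then the half power sum of exponent
`k - 1` vanishes modulo `p`.
-/

set_option autoImplicit false

namespace Pool.Agent.TH487.RP

open Finset Polynomial Pool.Agent.H332R2

theorem half_power_sum (p M k : ℕ) [hp : Fact p.Prime] (hM : p = 2 * M + 1) (hk : 2 ≤ k)
    (hkp : k + 2 ≤ p) (hB : (p : ℤ) ∣ (_root_.bernoulli k).num) :
    ∑ v ∈ range M, (((v + 1 : ℕ) : ZMod p)) ^ (k - 1) = 0 := by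
  obtain ⟨l, rfl⟩ : ∃ l, k = l + 1 := ⟨k - 1, by omega⟩
  have h3 : 3 ≤ p := by omega
  have hc : cc p (l + 1) = 0 := (cc_eq_zero_iff hkp h3).2 hB
  -- telescoping
  have htel : ∀ n : ℕ, (PP p (l + 1)).eval ((n : ℕ) : ZMod p) = (PP p (l + 1)).eval 0 +
      ∑ z ∈ range n, ((z : ℕ) : ZMod p) ^ l * ((l.factorial : ℕ) : ZMod p)⁻¹ := by
    intro n
    induction n with
    | zero => simp
    | succ n ih =>
      rw [sum_range_succ, ← add_assoc, ← ih, Nat.cast_succ, PP_diff (by omega)]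
  have h1 := htel (M + 1)
  have hhalf : ((M + 1 : ℕ) : ZMod p) = 2⁻¹ := by
    have h2 : ((2 : ℕ) : ZMod p) ≠ 0 := nat_ne_zero (p := p) (k := 2) (by norm_num) (by omega)
    have h4 : ((M + 1 : ℕ) : ZMod p) * ((2 : ℕ) : ZMod p) = 1 := by
      rw [← Nat.cast_mul]
      have : (M + 1) * 2 = p + 1 := by omega
      rw [this]
      push_cast
      simp
    have h5 := eq_inv_of_mul_eq_one_left h4
    rw [h5]
    push_cast
    rfl
  rw [hhalf, PP_eval_half (by omega) h3, PP_eval_zero, hc, mul_zero, zero_add, ← sum_mul,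
    sum_range_succ'] at h1
  have hf : ((l.factorial : ℕ) : ZMod p)⁻¹ ≠ 0 := inv_ne_zero (fact_ne_zero (by omega))
  have h6 := (mul_eq_zero.1 h1.symm).resolve_right hf
  rw [Nat.cast_zero, zero_pow (by omega), add_zero] at h6
  rw [Nat.add_sub_cancel]
  exact h6

end Pool.Agent.TH487.RP
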