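import Mathlib
import Pool.Agent.H916R2.OddChar
import Pool.Agent.TH487.RP.PV

/-!
Half sums of odd characters of prime conductor do not vanish.
-/

set_option autoImplicit false

namespace Pool.Agent.TH487.RP

open Finset Pool.Agent.H916R2

theorem two_ne (p : ℕ) [Fact p.Prime] (hp2 : p ≠ 2) : (2 : ZMod p) ≠ 0 := by
  intro h
  have h1 : ((2 : ℕ) : ZMod p) = 0 := by exact_mod_cast h
  rw [ZMod.natCast_eq_zero_iff] at h1
  have := (Nat.prime_dvd_prime_iff_eq (Fact.out : p.Prime) Nat.prime_two).1 h1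
  exact hp2 this

theorem SS_unit {p : ℕ} [NeZero p] (χ : DirichletCharacter ℂ p) (u : (ZMod p)ˣ) :
    SS χ (u : ZMod p) = χ⁻¹ (u : ZMod p) * SS χ 1 := by
  unfold SS
  rw [mul_sum]
  refine Fintype.sum_equiv (Equiv.mulRight u) _ _ fun t => ?_
  simp only [Equiv.coe_mulRight, Units.val_mul, map_mul, mul_one]
  have h1 : χ⁻¹ (u : ZMod p) * χ (u : ZMod p) = 1 := by
    rw [MulChar.inv_apply_eq_inv']
    exact inv_mul_cancel₀ ((u.isUnit.map χ).ne_zero)
  calc χ (t : ZMod p) * (saw ((t : ZMod p) * (u : ZMod p)) : ℂ)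
      = (χ⁻¹ (u : ZMod p) * χ (u : ZMod p)) * (χ (t : ZMod p) * (saw ((t : ZMod p) * (u : ZMod p)) : ℂ)) := by
        rw [h1, one_mul]
    _ = _ := by ring

theorem SS_one_ne_zero (p : ℕ) [Fact p.Prime] (χ : DirichletCharacter ℂ p) (hχ : χ.Odd) :
    SS χ 1 ≠ 0 := by
  intro h
  obtain ⟨a, ha⟩ := exists_SS_ne_zero χ hχ
  apply ha
  by_cases h0 : a = 0
  · subst h0
    unfold SS
    refine sum_eq_zero fun t _ => ?_
    rw [mul_zero, saw_zero]
    simp
  · have := SS_unit χ (Units.mk0 a h0)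
    rw [Units.val_mk0] at this
    rw [this, h, mul_zero]

/-- sums over units as sums over `ZMod p` -/
theorem sum_units (p : ℕ) [Fact p.Prime] (χ : DirichletCharacter ℂ p) (F : ZMod p → ℂ) :
    ∑ t : (ZMod p)ˣ, χ t * F t = ∑ b : ZMod p, χ b * F b := by
  classical
  have h1 : ∑ b : ZMod p, χ b * F b = ∑ b ∈ univ.filter (fun b : ZMod p => b ≠ 0), χ b * F b := by
    rw [sum_filter]
    refine sum_congr rfl fun b _ => ?_
    by_cases hb : b = 0
    · subst hb; rw [MulChar.map_zero, zero_mul]; simp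
    · rw [if_pos hb]
  rw [h1]
  refine sum_bij' (fun t _ => (t : ZMod p)) (fun b hb => Units.mk0 b (mem_filter.1 hb).2) ?_ ?_ ?_ ?_ ?_
  · intro t _; exact mem_filter.2 ⟨mem_univ _, t.ne_zero⟩
  · intro b _; exact mem_univ _
  · intro t _; simp
  · intro b _; simp
  · intro t _; rfl

/-- the sawtooth doubling relation -/
theorem saw_double (p M : ℕ) [Fact p.Prime] (hM : p = 2 * M + 1) (v : ℕ) (hv : v < M) :
    saw (((v + 1 : ℕ) : ZMod p) * 2) - 2 * saw (((v + 1 : ℕ) : ZMod p) * 1) = (p : ℤ) := by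
  have h1 : (((v + 1 : ℕ) : ZMod p) * 2) = ((2 * (v + 1) : ℕ) : ZMod p) := by push_cast; ring
  have hval1 : ((2 * (v + 1) : ℕ) : ZMod p).val = 2 * (v + 1) := ZMod.val_cast_of_lt (by omega)
  have hval2 : ((v + 1 : ℕ) : ZMod p).val = v + 1 := ZMod.val_cast_of_lt (by omega)
  have hn1 : ((2 * (v + 1) : ℕ) : ZMod p) ≠ 0 := by
    intro h; rw [h, ZMod.val_zero] at hval1; omega
  have hn2 : ((v + 1 : ℕ) : ZMod p) ≠ 0 := by
    intro h; rw [h, ZMod.val_zero] at hval2; omega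
  rw [h1, mul_one]
  unfold saw
  rw [if_neg hn1, if_neg hn2, hval1, hval2]
  push_cast
  ring

/-- half sums of odd characters do not vanish -/
theorem half_sum_ne_zero (p M : ℕ) [Fact p.Prime] (hM : p = 2 * M + 1)
    (χ : DirichletCharacter ℂ p) (hχ : χ.Odd) :
    ∑ v ∈ range M, χ ((v + 1 : ℕ) : ZMod p) ≠ 0 := by
  have hpp : p.Prime := Fact.out
  have hp2 : p ≠ 2 := by omega
  have h2 := two_ne p hp2
  have hS1 := SS_one_ne_zero p χ hχ
  have hS2 := SS_unit χ (Units.mk0 2 h2)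
  rw [Units.val_mk0] at hS2
  have hodd : ∀ b : ZMod p, χ (-b) = - χ b := fun b => DirichletCharacter.Odd.eval_neg (ψ := χ) b hχ
  -- the key identity
  have key : SS χ 2 - 2 * SS χ 1 = 2 * (p : ℂ) * ∑ v ∈ range M, χ ((v + 1 : ℕ) : ZMod p) := by
    unfold SS
    rw [sum_units p χ (fun t => ((saw (t * 2) : ℤ) : ℂ)), sum_units p χ (fun t => ((saw (t * 1) : ℤ) : ℂ)),
      sum_zmod p M hM, sum_zmod p M hM]
    rw [MulChar.map_zero, zero_mul, zero_mul, zero_add, zero_add, mul_sum, mul_sum, ← sum_sub_distrib]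
    refine sum_congr rfl fun v hv => ?_
    rw [mem_range] at hv
    have h3 := saw_double p M hM v hv
    have h4 : ((saw (((v + 1 : ℕ) : ZMod p) * 2) : ℤ) : ℂ) - 2 * ((saw (((v + 1 : ℕ) : ZMod p) * 1) : ℤ) : ℂ) = (p : ℂ) := by
      exact_mod_cast congrArg (fun z : ℤ => (z : ℂ)) h3
    rw [hodd, neg_mul, neg_mul, neg_mul, saw_neg, neg_mul, saw_neg]
    push_cast at h4 ⊢
    linear_combination 2 * χ ((v : ZMod p) + 1) * h4
  intro h0
  rw [h0, mul_zero, hS2] at key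
  have h5 : (χ⁻¹ (2 : ZMod p) - 2) * SS χ 1 = 0 := by linear_combination key
  rcases mul_eq_zero.1 h5 with h6 | h6
  · have h7 : ‖χ⁻¹ (2 : ZMod p)‖ ≤ 1 := DirichletCharacter.norm_le_one χ⁻¹ 2
    have h8 : χ⁻¹ (2 : ZMod p) = 2 := by linear_combination h6
    rw [h8] at h7
    norm_num at h7
  · exact hS1 h6

end Pool.Agent.TH487.RP
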