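import Mathlib
import Pool.Agent.TH487.RP.Alg
import Pool.Agent.TH487.RP.NV
import Pool.Agent.TH487.RP.Bern

/-!
The number of irregular indices in each Galois orbit.
-/

set_option autoImplicit false

namespace Pool.Agent.TH487.RP

open Finset Polynomial

/-- The even `k`, `2 ≤ k ≤ p - 3`, with `gcd (k - 1, p - 1) = m`. -/
def orbit (p m : ℕ) : Finset ℕ :=
  (Icc 2 (p - 3)).filter (fun k => Even k ∧ Nat.gcd (k - 1) (p - 1) = m)

/-- The members `k` of `orbit p m` such that `p` divides the numerator of `B_k`. -/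
noncomputable def irr (p m : ℕ) : Finset ℕ :=
  (orbit p m).filter (fun k => (p : ℤ) ∣ (_root_.bernoulli k).num)

theorem mem_orbit {p m k : ℕ} : k ∈ orbit p m ↔
    (2 ≤ k ∧ k ≤ p - 3) ∧ Even k ∧ Nat.gcd (k - 1) (p - 1) = m := by
  unfold orbit
  rw [mem_filter, mem_Icc]

theorem mem_irr {p m k : ℕ} : k ∈ irr p m ↔
    ((2 ≤ k ∧ k ≤ p - 3) ∧ Even k ∧ Nat.gcd (k - 1) (p - 1) = m) ∧
      (p : ℤ) ∣ (_root_.bernoulli k).num := by
  unfold irr
  rw [mem_filter, mem_orbit]

/-- number of elements of the orbit -/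
theorem card_orbit (p m : ℕ) (hp : p.Prime) (hp5 : 5 ≤ p) (hm : Odd m) (hmp : m ∣ p - 1) :
    (orbit p m).card + (if m = 1 then 1 else 0) = Nat.totient ((p - 1) / m) := by
  have hodd : Odd p := hp.odd_of_ne_two (by omega)
  obtain ⟨M, hM⟩ := hodd
  rw [Nat.totient_div_of_dvd hmp]
  have hpar : ∀ j, (p - 1).gcd j = m → Odd j := by
    intro j hj
    by_contra h
    rw [Nat.not_odd_iff_even] at h
    have h1 : 2 ∣ (p - 1).gcd j := Nat.dvd_gcd ⟨M, by omega⟩ h.two_dvd
    rw [hj] at h1
    have := hm.not_two_dvd_nat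
    exact this h1
  have hkey : (range (p - 1)).filter (fun k => (p - 1).gcd k = m) =
      ((orbit p m).image (fun k => k - 1)) ∪ (if m = 1 then {p - 2} else ∅) := by
    ext j
    rw [mem_filter, mem_range, mem_union, mem_image]
    constructor
    · rintro ⟨hj1, hj2⟩
      have hoj := hpar j hj2
      by_cases hjp : j = p - 2
      · right
        have h1 : (p - 1).gcd j = 1 := by
          subst hjp
          have : p - 1 = (p - 2) + 1 := by omega
          rw [this, Nat.gcd_comm]
          exact (Nat.coprime_self_add_right).2 (Nat.coprime_one_right _)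
        rw [hj2] at h1
        rw [if_pos h1, mem_singleton]
        exact hjp
      · left
        refine ⟨j + 1, ?_, by simp⟩
        rw [mem_orbit]
        obtain ⟨i, hi⟩ := hoj
        refine ⟨⟨by omega, by omega⟩, ⟨i + 1, by omega⟩, ?_⟩
        rw [Nat.add_sub_cancel, Nat.gcd_comm]
        exact hj2
    · rintro (⟨k, hk, rfl⟩ | h)
      · rw [mem_orbit] at hk
        obtain ⟨⟨hk1, hk2⟩, -, hk4⟩ := hk
        refine ⟨by omega, ?_⟩
        rw [Nat.gcd_comm]; exact hk4
      · by_cases h1 : m = 1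
        · rw [if_pos h1, mem_singleton] at h
          subst h
          refine ⟨by omega, ?_⟩
          have : p - 1 = (p - 2) + 1 := by omega
          rw [this, Nat.gcd_comm, h1]
          exact (Nat.coprime_self_add_right).2 (Nat.coprime_one_right _)
        · rw [if_neg h1] at h
          simp at h
  rw [hkey, card_union_of_disjoint, card_image_of_injOn]
  · congr 1
    by_cases h1 : m = 1
    · rw [if_pos h1, if_pos h1, card_singleton]
    · rw [if_neg h1, if_neg h1, card_empty]
  · intro a ha b hb hab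
    rw [mem_coe, mem_orbit] at ha hb
    have h1 := ha.1.1
    have h2 := hb.1.1
    simp only at hab
    omega
  · rw [disjoint_left]
    intro a ha hb
    rw [mem_image] at ha
    obtain ⟨k, hk, rfl⟩ := ha
    rw [mem_orbit] at hk
    by_cases h1 : m = 1
    · rw [if_pos h1, mem_singleton] at hb
      omega
    · rw [if_neg h1] at hb
      simp at hb

/-- the main inequality -/
theorem main_ineq (p m : ℕ) (hp : p.Prime) (hp5 : 5 ≤ p) (hm : Odd m) (hmp : m ∣ p - 1) :
    (p : ℝ) ^ (2 * (irr p m).card) ≤ (p * Real.log p ^ 2) ^ Nat.totient ((p - 1) / m) := by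
  classical
  have : Fact p.Prime := ⟨hp⟩
  have hodd : Odd p := hp.odd_of_ne_two (by omega)
  obtain ⟨M, hM⟩ := hodd
  obtain ⟨d, hd⟩ := hmp
  have hm0 : 0 < m := hm.pos
  have hd0 : 0 < d := by
    rcases Nat.eq_zero_or_pos d with h | h
    · subst h; omega
    · exact h
  have hdiv : (p - 1) / m = d := by rw [hd]; exact Nat.mul_div_cancel_left d hm0
  rw [hdiv]
  have hdM : ¬ d ∣ M := by
    rintro ⟨c, hc⟩
    have h1 : d * m = d * (2 * c) := by
      calc d * m = p - 1 := by rw [hd, mul_comm]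
        _ = 2 * M := by omega
        _ = d * (2 * c) := by rw [hc]; ring
    have h2 := Nat.eq_of_mul_eq_mul_left hd0 h1
    have := hm.not_two_dvd_nat
    exact this ⟨c, h2⟩
  -- generator
  obtain ⟨g, hg⟩ := IsCyclic.exists_generator (α := (ZMod p)ˣ)
  have hgo : orderOf g = p - 1 := by
    rw [orderOf_eq_card_of_forall_mem_zpowers hg, Nat.card_eq_fintype_card, ZMod.card_units]
  have hind : ∀ u : (ZMod p)ˣ, ∃ n : ℕ, g ^ n = u := by
    intro u
    have h1 := hg u
    rw [← mem_powers_iff_mem_zpowers] at h1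
    obtain ⟨n, hn⟩ := h1
    exact ⟨n, hn⟩
  choose ind hind using hind
  have hne : ∀ v, v < M → ((v + 1 : ℕ) : ZMod p) ≠ 0 := by
    intro v hv h
    rw [ZMod.natCast_eq_zero_iff] at h
    have := Nat.le_of_dvd (by omega) h
    omega
  let J : ℕ → ℕ := fun v => if h : ((v + 1 : ℕ) : ZMod p) ≠ 0 then ind (Units.mk0 _ h) else 0
  have hJ : ∀ v, v < M → (g : ZMod p) ^ (J v) = ((v + 1 : ℕ) : ZMod p) := by
    intro v hv
    have h := hne v hv
    have h1 : J v = ind (Units.mk0 _ h) := dif_pos h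
    rw [h1, ← Units.val_pow_eq_pow_val, hind, Units.val_mk0]
  let P : ℤ[X] := ∑ v ∈ range M, X ^ (J v)
  have hPeval : ∀ {K : Type} [CommRing K] (f : ℤ →+* K) (x : K),
      P.eval₂ f x = ∑ v ∈ range M, x ^ (J v) := by
    intro K _ f x
    simp only [P, eval₂_finsetSum, eval₂_X_pow]
  -- complex side
  have hcomplex : ∀ ζ ∈ primitiveRoots d ℂ, P.eval₂ (Int.castRingHom ℂ) ζ ≠ 0 ∧
      ‖P.eval₂ (Int.castRingHom ℂ) ζ‖ ≤ Real.sqrt p * Real.log p := by
    intro ζ hζ
    have hζp : IsPrimitiveRoot ζ d := (mem_primitiveRoots hd0).1 hζ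
    have hζ1 : ζ ^ (p - 1) = 1 := by
      rw [hd, mul_comm, pow_mul, hζp.pow_eq_one, one_pow]
    have hζ0 : ζ ≠ 0 := hζp.ne_zero hd0.ne'
    have hmem : Units.mk0 ζ hζ0 ∈ rootsOfUnity (Fintype.card (ZMod p)ˣ) ℂ := by
      rw [mem_rootsOfUnity, ZMod.card_units]
      ext
      simpa using hζ1
    set χ : MulChar (ZMod p) ℂ := MulChar.ofRootOfUnity hmem hg with hχ
    have hχg : χ (g : ZMod p) = ζ := by
      rw [hχ, MulChar.ofRootOfUnity_spec]
      rfl
    have hval : P.eval₂ (Int.castRingHom ℂ) ζ = ∑ v ∈ range M, χ ((v + 1 : ℕ) : ZMod p) := by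
      rw [hPeval]
      refine sum_congr rfl fun v hv => ?_
      rw [← hJ v (mem_range.1 hv), map_pow, hχg]
    -- parity
    have hgM : (g : ZMod p) ^ M = -1 := by
      have h1 : ((g : ZMod p) ^ M) * ((g : ZMod p) ^ M) = 1 := by
        rw [← pow_add]
        have h2 : M + M = p - 1 := by omega
        rw [h2, ← Units.val_pow_eq_pow_val, ← hgo, pow_orderOf_eq_one, Units.val_one]
      rcases mul_self_eq_one_iff.1 h1 with h | h
      · exfalso
        rw [← Units.val_pow_eq_pow_val] at h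
        have h3 : g ^ M = 1 := Units.ext h
        have h4 := orderOf_dvd_of_pow_eq_one h3
        rw [hgo] at h4
        have := Nat.le_of_dvd (by omega) h4
        omega
      · exact h
    have hζM : ζ ^ M = -1 := by
      have h1 : (ζ ^ M) * (ζ ^ M) = 1 := by
        rw [← pow_add]
        have h2 : M + M = p - 1 := by omega
        rw [h2, hζ1]
      rcases mul_self_eq_one_iff.1 h1 with h | h
      · exact absurd (hζp.dvd_of_pow_eq_one M h) hdM
      · exact h
    have hχodd : DirichletCharacter.Odd χ := by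
      show χ (-1) = -1
      rw [← hgM, map_pow, hχg, hζM]
    have hχne : χ ≠ 1 := by
      intro h
      have h1 : χ (-1) = -1 := hχodd
      rw [h, MulChar.one_apply (by simp : IsUnit (-1 : ZMod p))] at h1
      norm_num at h1
    rw [hval]
    refine ⟨half_sum_ne_zero p M hM χ hχodd, ?_⟩
    have hpv := polya_vinogradov p (by omega) χ hχne (M + 1)
    rw [sum_range_succ', Nat.cast_zero, MulChar.map_zero, add_zero] at hpv
    exact hpv
  -- modulo `p` side
  set R : Finset (ZMod p) := (irr p m).image (fun k => (g : ZMod p) ^ (k - 1)) with hRdef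
  have hRcard : R.card = (irr p m).card := by
    rw [hRdef, card_image_of_injOn]
    intro a ha b hb hab
    rw [mem_coe, mem_irr] at ha hb
    have hab' : g ^ (a - 1) = g ^ (b - 1) := by
      apply Units.ext
      rw [Units.val_pow_eq_pow_val, Units.val_pow_eq_pow_val]
      exact hab
    have h1 := ha.1.1
    have h2 := hb.1.1
    have h3 := pow_injOn_Iio_orderOf (x := g) (Set.mem_Iio.2 (by rw [hgo]; omega))
      (Set.mem_Iio.2 (by rw [hgo]; omega)) hab'
    omega
  have hR : ∀ ρ ∈ R, IsPrimitiveRoot ρ d ∧ P.eval₂ (Int.castRingHom (ZMod p)) ρ = 0 := by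
    intro ρ hρ
    rw [hRdef, mem_image] at hρ
    obtain ⟨k, hk, rfl⟩ := hρ
    rw [mem_irr] at hk
    obtain ⟨⟨⟨hk1, hk2⟩, -, hk3⟩, hk4⟩ := hk
    constructor
    · have h1 : orderOf (g ^ (k - 1)) = d := by
        rw [orderOf_pow, hgo, Nat.gcd_comm, hk3, hdiv]
      have h2 : IsPrimitiveRoot (g ^ (k - 1)) d := by
        rw [← h1]; exact IsPrimitiveRoot.orderOf _
      have h3 := IsPrimitiveRoot.coe_units_iff.2 h2
      rwa [Units.val_pow_eq_pow_val] at h3
    · rw [hPeval]
      have h1 := half_power_sum p M k hM hk1 (by omega) hk4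
      rw [← h1]
      refine sum_congr rfl fun v hv => ?_
      rw [← hJ v (mem_range.1 hv), ← pow_mul, ← pow_mul, mul_comm]
  have hdvd := pow_dvd_det p d hd0 ⟨m, by rw [hd, mul_comm]⟩ P R hR
  rw [hRcard] at hdvd
  have hdet := det_MM d hd0 P
  have hdet0 : (MM d P).det ≠ 0 := by
    intro h
    rw [h, Int.cast_zero] at hdet
    exact (prod_ne_zero_iff.2 fun ζ hζ => (hcomplex ζ hζ).1) hdet.symm
  have hle : (p : ℝ) ^ (irr p m).card ≤ |((MM d P).det : ℝ)| := by
    have h1 := Int.le_of_dvd (abs_pos.2 hdet0) ((dvd_abs _ _).2 hdvd)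
    exact_mod_cast h1
  have habs : |((MM d P).det : ℝ)| ≤ (Real.sqrt p * Real.log p) ^ Nat.totient d := by
    have h1 : |((MM d P).det : ℝ)| = ‖(((MM d P).det : ℤ) : ℂ)‖ := by
      rw [Complex.norm_intCast]
    rw [h1, hdet, norm_prod]
    have h2 : (primitiveRoots d ℂ).card = Nat.totient d :=
      (Complex.isPrimitiveRoot_exp d hd0.ne').card_primitiveRoots
    rw [← h2]
    refine (prod_le_prod (fun _ _ => norm_nonneg _) fun ζ hζ => (hcomplex ζ hζ).2).trans ?_
    rw [prod_const]
  have hfin := hle.trans habs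
  have hp0 : (0 : ℝ) ≤ (p : ℝ) := Nat.cast_nonneg p
  calc (p : ℝ) ^ (2 * (irr p m).card) = ((p : ℝ) ^ (irr p m).card) ^ 2 := by
        rw [mul_comm, pow_mul]
    _ ≤ ((Real.sqrt p * Real.log p) ^ Nat.totient d) ^ 2 :=
        pow_le_pow_left₀ (by positivity) hfin 2
    _ = (p * Real.log p ^ 2) ^ Nat.totient d := by
        rw [← pow_mul, mul_comm (Nat.totient d) 2, pow_mul, mul_pow, Real.sq_sqrt hp0]

end Pool.Agent.TH487.RP
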