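import Mathlib
import Pool.Agent.TH487.RP.Main

/-!
Consequences of the main inequality.
-/

set_option autoImplicit false

namespace Pool.Agent.TH487.RP

open Finset

theorem log_sq_lt (p : ℕ) (hp5 : 5 ≤ p) : Real.log p ^ 2 < p := by
  have hp0 : (0 : ℝ) < p := by positivity
  set y := Real.sqrt p with hy
  have hy0 : 0 < y := Real.sqrt_pos.2 hp0
  have hyp : y ^ 2 = p := Real.sq_sqrt hp0.le
  have he : (2 : ℝ) < Real.exp 1 := by
    have := Real.exp_one_gt_d9
    linarith
  have h1 : Real.log (y / Real.exp 1) ≤ y / Real.exp 1 - 1 :=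
    Real.log_le_sub_one_of_pos (by positivity)
  rw [Real.log_div hy0.ne' (by positivity), Real.log_exp] at h1
  have h2 : Real.log y ≤ y / Real.exp 1 := by linarith
  have h3 : y / Real.exp 1 < y / 2 := by
    rw [div_lt_div_iff₀ (by positivity) (by norm_num)]
    nlinarith
  have h4 : Real.log p = 2 * Real.log y := by
    rw [← hyp, Real.log_pow]; norm_num
  have h5 : Real.log p < y := by rw [h4]; linarith
  have h6 : 0 ≤ Real.log p := Real.log_nonneg (by exact_mod_cast (by omega : 1 ≤ p))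
  calc Real.log p ^ 2 < y ^ 2 := pow_lt_pow_left₀ h5 h6 (by norm_num)
    _ = p := hyp

theorem irr_lt (p m : ℕ) (hp : p.Prime) (hp5 : 5 ≤ p) (hm : Odd m) (hmp : m ∣ p - 1) :
    (irr p m).card < Nat.totient ((p - 1) / m) := by
  have h := main_ineq p m hp hp5 hm hmp
  set r := (irr p m).card
  set f := Nat.totient ((p - 1) / m) with hf
  have hp1 : (1 : ℝ) < p := by exact_mod_cast (by omega : 1 < p)
  have hf0 : 0 < f := by
    rw [hf, Nat.totient_pos]
    exact Nat.div_pos (Nat.le_of_dvd (by omega) hmp) hm.pos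
  by_contra hcon
  push Not at hcon
  have hlog := log_sq_lt p hp5
  have h1 : (p : ℝ) ^ (2 * f) ≤ (p : ℝ) ^ (2 * r) := pow_le_pow_right₀ hp1.le (by omega)
  have h2 : (p * Real.log p ^ 2) ^ f < (p * (p : ℝ)) ^ f := by
    refine pow_lt_pow_left₀ ?_ (by positivity) hf0.ne'
    exact mul_lt_mul_of_pos_left hlog (by linarith)
  have h3 : (p * (p : ℝ)) ^ f = (p : ℝ) ^ (2 * f) := by
    rw [pow_mul, sq]
  linarith

theorem irr_half (p m : ℕ) (hp : p.Prime) (hp5 : 5 ≤ p) (hm : Odd m) (hmp : m ∣ p - 1)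
    (hs : Real.log p ^ (2 * Nat.totient ((p - 1) / m)) < p) :
    2 * (irr p m).card ≤ Nat.totient ((p - 1) / m) := by
  have h := main_ineq p m hp hp5 hm hmp
  set r := (irr p m).card
  set f := Nat.totient ((p - 1) / m) with hf
  have hp1 : (1 : ℝ) < p := by exact_mod_cast (by omega : 1 < p)
  by_contra hcon
  push Not at hcon
  have h1 : (p : ℝ) ^ (f + 1) ≤ (p : ℝ) ^ (2 * r) := pow_le_pow_right₀ hp1.le (by omega)
  rw [mul_pow, ← pow_mul] at h
  have h2 : (p : ℝ) ^ f * Real.log p ^ (2 * f) < (p : ℝ) ^ f * p :=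
    mul_lt_mul_of_pos_left hs (by positivity)
  rw [pow_succ] at h1
  linarith

theorem irr_asymp (ε : ℝ) (hε : 0 < ε) : ∃ P : ℕ, ∀ p : ℕ, P ≤ p → p.Prime → ∀ m : ℕ, Odd m →
    m ∣ p - 1 → ((irr p m).card : ℝ) ≤ (1 / 2 + ε) * Nat.totient ((p - 1) / m) := by
  have h1 : ∀ᶠ p : ℕ in Filter.atTop, Real.log (Real.log p) ≤ ε * Real.log p := by
    have h2 := Real.isLittleO_log_id_atTop.bound hε
    have h3 : Filter.Tendsto (fun p : ℕ => Real.log p) Filter.atTop Filter.atTop :=
      Real.tendsto_log_atTop.comp tendsto_natCast_atTop_atTop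
    have h4 := h3.eventually h2
    have h5 := h3.eventually (Filter.eventually_ge_atTop (1 : ℝ))
    filter_upwards [h4, h5] with p hp hp'
    rw [Real.norm_eq_abs, id, Real.norm_eq_abs, abs_of_nonneg (Real.log_nonneg hp'),
      abs_of_nonneg (by linarith)] at hp
    exact hp
  obtain ⟨P, hP⟩ := Filter.eventually_atTop.1 h1
  refine ⟨max P 5, fun p hp hpp m hm hmp => ?_⟩
  have hp5 : 5 ≤ p := le_trans (le_max_right _ _) hp
  have hll := hP p (le_trans (le_max_left _ _) hp)
  have h := main_ineq p m hpp hp5 hm hmp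
  set r := (irr p m).card
  set f := Nat.totient ((p - 1) / m) with hf
  have hp1 : (1 : ℝ) < p := by exact_mod_cast (by omega : 1 < p)
  have hL : 0 < Real.log p := Real.log_pos hp1
  have h2 := Real.log_le_log (by positivity) h
  rw [Real.log_pow, Real.log_pow, Real.log_mul (by positivity) (by positivity), Real.log_pow] at h2
  push_cast at h2
  have h3 : (f : ℝ) * (Real.log p + 2 * Real.log (Real.log p)) ≤
      (f : ℝ) * (Real.log p + 2 * (ε * Real.log p)) := by
    refine mul_le_mul_of_nonneg_left ?_ (Nat.cast_nonneg f)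
    linarith
  have h4 : (r : ℝ) * Real.log p ≤ ((1 / 2 + ε) * f) * Real.log p := by nlinarith
  exact le_of_mul_le_mul_right h4 hL

end Pool.Agent.TH487.RP
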